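import Mathlib
import Pool.Agent.H22.ZooRay

set_option autoImplicit false
open MeasureTheory ProbabilityTheory

namespace Pool.Agent.Results.MP_04d7a1_pr.Lattice

/-- The nearest-neighbour lattice on `ℤ²`. -/
def lattice : SimpleGraph (ℤ × ℤ) where
  Adj a b := |a.1 - b.1| + |a.2 - b.2| = 1
  symm := ⟨fun a b h => by rw [abs_sub_comm b.1, abs_sub_comm b.2]; exact h⟩
  loopless := ⟨fun a h => by simp at h⟩

/-- The four unit vectors. -/
def dir : Fin 4 → ℤ × ℤ := ![(1, 0), (-1, 0), (0, 1), (0, -1)]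

/-- The ray animal `{0, e, 2e, …, L e}` with direction `e = dir a.1` and length `L = a.2`. -/
def ray (a : Fin 4 × ℕ) : Set (ℤ × ℤ) := {z | ∃ t : ℕ, t ≤ a.2 ∧ z = (t : ℤ) • dir a.1}

/-- At every site, independently, a Poisson(`lam`) number and an i.i.d. sequence of marks
(uniform direction, independent length of law `m`). -/
noncomputable def law (m : PMF ℕ) (lam : NNReal) : Measure (ℤ × ℤ → ℕ × (ℕ → Fin 4 × ℕ)) :=
  Measure.infinitePi fun _ => (poissonMeasure lam).prod
    (Measure.infinitePi fun _ : ℕ => (PMF.uniformOfFintype (Fin 4)).toMeasure.prod m.toMeasure)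

/-- The occupied set: the union over sites `x` of the first `N_x` rays rooted at `x`. -/
def occ (ω : ℤ × ℤ → ℕ × (ℕ → Fin 4 × ℕ)) : Set (ℤ × ℤ) :=
  {y | ∃ x, ∃ i < (ω x).1, y - x ∈ ray ((ω x).2 i)}

/-- The critical intensity. -/
noncomputable def lamc (m : PMF ℕ) : ENNReal :=
  ⨅ (lam : NNReal) (_ : 0 < lam)
    (_ : 0 < law m lam {ω | ∃ c : (lattice.induce (occ ω)).ConnectedComponent, c.supp.Infinite}),
    (lam : ENNReal)

/-- A law of the ray length with `E |H|² = ∞` and positive critical intensity. -/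
theorem result : ∃ m : PMF ℕ, ∑' L : ℕ, ((L : ENNReal) + 1) ^ 2 * m L = ⊤ ∧ 0 < lamc m := by
  obtain ⟨m, h1, v0, h2, h3⟩ := Pool.Agent.H22.Zoo.rays
  refine ⟨m, h1, lt_of_lt_of_le (b := (v0 : ENNReal)) (by exact_mod_cast h2)
    (le_iInf fun v => le_iInf₂ fun _ h => ?_)⟩
  by_contra hv
  exact h.ne' (h3 v (by exact_mod_cast (not_le.1 hv).le))

end Pool.Agent.Results.MP_04d7a1_pr.Lattice
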